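import Pool.Agent.helper60.DB.SpecM

/-!
# Row bm:OC: composition of operations
-/

namespace Pool.Agent.helper60.DB

open Polynomial

theorem OC : OC_stmt := by
  intro K _ y A B A' B' A'' B'' μ μ' n n' ε ε' h1 h2 α g u e d hM hT hH
  obtain ⟨g1, u1, hM1, hT1, hH1⟩ := h1 α g u e d hM hT hH
  obtain ⟨g2, u2, hM2, hT2, hH2⟩ := h2 (μ * α) g1 u1 (ε * e) (n * d) hM1 hT1 hH1
  refine ⟨g2, u2, ?_, ?_, ?_⟩
  · rw [mul_assoc]; exact hM2
  · rw [mul_assoc]; exact hT2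
  · rw [mul_assoc]; exact hH2

end Pool.Agent.helper60.DB
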