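import Pool.Agent.helper60.DB.SpecC

/-!
# Row bc:SQ: a squarefree quadratic times a square is not a square
-/

namespace Pool.Agent.helper60.DB

open Polynomial

theorem SQ_step {k : Type} [Field k] {f : k[X]} (hf : Squarefree f) (hd : f.natDegree = 2) :
    ∀ (n : ℕ) (P Q : k[X]), P.natDegree ≤ n → P ^ 2 * f = Q ^ 2 → P = 0 := by
  have hf0 : f ≠ 0 := hf.ne_zero
  intro n
  induction n using Nat.strong_induction_on with
  | _ n ih =>
    intro P Q hP h
    by_contra hP0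
    have h1 : f ∣ Q ^ 2 := ⟨P ^ 2, by rw [← h, mul_comm]⟩
    have h2 : f ∣ Q := (hf.dvd_pow_iff_dvd two_ne_zero).1 h1
    obtain ⟨Q1, rfl⟩ := h2
    have h3 : P ^ 2 = f * Q1 ^ 2 := by
      apply mul_right_cancel₀ hf0
      rw [h]; ring
    have h4 : f ∣ P := (hf.dvd_pow_iff_dvd two_ne_zero).1 ⟨Q1 ^ 2, h3⟩
    obtain ⟨P1, rfl⟩ := h4
    have h5 : P1 ^ 2 * f = Q1 ^ 2 := by
      apply mul_left_cancel₀ hf0
      rw [← h3]; ring
    have hP1 : P1 ≠ 0 := by
      rintro rfl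
      exact hP0 (mul_zero _)
    have h6 : (f * P1).natDegree = 2 + P1.natDegree := by
      rw [natDegree_mul hf0 hP1, hd]
    exact hP1 (ih P1.natDegree (by omega) P1 Q1 le_rfl h5)

theorem SQ (hSF : SF_stmt) : SQ_stmt := by
  intro k _ A B P Q hB hA h
  obtain ⟨h1, h2⟩ := hSF k A B hB hA
  exact SQ_step h1 h2 P.natDegree P Q le_rfl h

end Pool.Agent.helper60.DB
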